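import Pool.Agent.helper5.PR.SpecX
import Pool.Agent.helper43.PR.S_FIN

/-!
# Project pr: (MP_a2a22c_al), module X-CEN: the central extension with its representation
-/

set_option autoImplicit false

namespace Pool.Agent.PR

open Matrix

theorem X_CEN (hSYS : S_SYS_stmt) (hEXP : S_EXP_stmt) (hEXT : S_EXT_stmt)
    (hNILP : S_NILP_stmt) (hMAIN : S_MAIN_stmt) (hFG : K_FG_stmt) : X_CEN_stmt := by
  intro n hn L _ hL hRF hQ P hP
  have hinf : Infinite L := S_FIN_inf _ P hP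
  obtain ⟨S, -, -, -⟩ := hSYS (SLZ n) L (hFG n) hQ (Multiplicative (ZMod 1)) 1
  obtain ⟨p, hp, hU⟩ := hEXP n hn L hL hRF hinf S
  have : Fact p.Prime := ⟨hp⟩
  obtain ⟨Λ, _, π, ρ, h1, h2, h3, hπ, hk, hc, hρ, -⟩ := hEXT n hn L hL hRF S p hU
  obtain ⟨P', hP'⟩ := hNILP Λ L π hπ hk hc h3 _ P hP
  obtain ⟨m, R, hm, hR, hRk⟩ := hMAIN n hn Λ h1 h2 h3 ℚ_[p] _ (S_FIN_range ρ hρ) P' hP'
  exact ⟨Λ, inferInstance, π, m, R, h1, h2, h3, hπ, hc, hm, hR, hRk⟩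

end Pool.Agent.PR
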